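import Mathlib
import Pool.Agent.H469R10.HO.Stmts

/-! Project H295-D6 (MP_70e45f_nt): the set `D_6` has positive lower density.
Definitions and the statements of the tasks. -/

set_option autoImplicit false

open Finset Filter

namespace Pool.Agent.H295R3.D6

/-- `F_k` of the problem -/
def F (k : ℕ) : Set ℕ := {m | ∃ r : ℕ, 1 ≤ r ∧ r ≤ k ∧ ∃ a : ℕ → ℕ, a 1 = m ∧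
  (∀ i j, 1 ≤ i → i < j → j ≤ r → a j < a i) ∧ (∀ i, 1 ≤ i → i ≤ r → 1 ≤ a i) ∧
  IsSquare (∏ i ∈ Icc 1 r, (a i).factorial)}

/-- product of the integers in `(a, b]` -/
def blk (a b : ℕ) : ℕ := ∏ n ∈ Ioc a b, n

/-- the relation coming from a square product of at most five factorials -/
def Rel (m b₂ b₃ b₄ B : ℕ) : Prop := B ≤ b₄ ∧ b₄ ≤ b₃ ∧ b₃ ≤ b₂ ∧ b₂ < m ∧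
  IsSquare (blk b₂ m * blk b₄ b₃ * B.factorial)

/-- nice `k` -/
def Nice (y k : ℕ) : Prop := Squarefree k ∧ (∀ l : ℕ, l.Prime → l ∣ k → y < l) ∧
  ∀ a : ℕ, y ≤ a → 6 * ∑ l ∈ (Icc 1 a).filter (fun l => l.Prime ∧ l ∣ k), Real.log l ≤ a

/-- `q` has a multiple `n` with `|n - n₀| < w` -/
def hit (q n₀ w : ℕ) : Prop := ∃ n : ℕ, q ∣ n ∧ n₀ < n + w ∧ n < n₀ + w

open Classical in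
/-- `n₀` is regular at scale `w` -/
def Reg (η : ℝ) (N w n₀ : ℕ) : Prop :=
  ∑ q ∈ (Icc 1 ⌊(w : ℝ) * (N : ℝ) ^ (2 * η)⌋₊).filter (fun q => q.Prime ∧ w < q ∧ hit q n₀ w),
      Real.log q ≤ 6 * η * w * Real.log N ∧
  (((Ioo (n₀ - w) (n₀ + w)).filter (fun n => ∃ q : ℕ, q.Prime ∧ w < q ∧ q ^ 2 ∣ n)).card : ℝ) ≤ η * w

/-- numbers in which every prime larger than `N ^ (3 η)` has even exponent -/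
def G (η : ℝ) (N : ℕ) : Set ℕ := {n | 1 ≤ n ∧ n ≤ N ∧
  ∀ q : ℕ, q.Prime → (N : ℝ) ^ (3 * η) < q → Even (n.factorization q)}

/-! ### exceptional sets -/

def E1 (η : ℝ) (N : ℕ) : Set ℕ := {m | 1 ≤ m ∧ m ≤ N ∧ ∃ h : ℕ, 1 ≤ h ∧ h ≤ m ∧
  h ≤ 2 * (G η N ∩ {n | m - h ≤ n ∧ n < m}).ncard}

def E2 (η θ : ℝ) (N : ℕ) : Set ℕ := {n₀ | 1 ≤ n₀ ∧ n₀ ≤ N ∧ ∃ i : ℕ, (N : ℝ) ^ θ ≤ (2 : ℝ) ^ i ∧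
  (2 : ℝ) ^ i ≤ (N : ℝ) ^ (1 - 10 * η) ∧ ¬ Reg η N (2 ^ i) n₀}

/-- close to a number divisible by a large square -/
def E4 (η : ℝ) (N : ℕ) : Set ℕ := {M | 1 ≤ M ∧ M ≤ N ∧ ∃ n d : ℕ, 1 ≤ n ∧
  (M : ℝ) < n + (N : ℝ) ^ (3 * η) ∧ (n : ℝ) < M + (N : ℝ) ^ (3 * η) ∧ d ^ 2 ∣ n ∧
  (N : ℝ) ^ (6 * η) ≤ d}

def E5 (η c₁ : ℝ) (N : ℕ) : Set ℕ := {m | 1 ≤ m ∧ m ≤ N ∧ ∃ k p j l B : ℕ, m = k * p ∧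
  1 ≤ k ∧ (k : ℝ) ≤ (N : ℝ) ^ η ∧ 1 ≤ j ∧ (j : ℝ) ≤ (N : ℝ) ^ η ∧ 1 ≤ l ∧
  (l : ℝ) ≤ (N : ℝ) ^ (3 * η) ∧ c₁ * l * Real.log N ≤ B ∧ (B : ℝ) ≤ 6 * l * Real.log N ∧
  ∀ q : ℕ, q.Prime → B < 2 * q → q ≤ B → ((∃ x, x < l ∧ x ≤ k * p ∧ q ∣ k * p - x) ∨ hit q (j * p) l)}

/-- close to a number with small squarefree part -/
def E6 (A : ℝ) (N : ℕ) : Set ℕ := {M | 1 ≤ M ∧ M ≤ N ∧ ∃ n s t : ℕ, 1 ≤ n ∧ (M : ℝ) ≤ n + A ∧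
  (n : ℝ) ≤ M + A ∧ n = s * t ^ 2 ∧ (s : ℝ) ≤ (N : ℝ) ^ (1 / 10 : ℝ)}

/-- all `k p` such that some `j p` (`j < k`) is in `E` -/
def Lift (K : ℝ) (N : ℕ) (E : Set ℕ) : Set ℕ := {m | 1 ≤ m ∧ m ≤ N ∧ ∃ k p j : ℕ, p.Prime ∧ K < p ∧
  1 ≤ j ∧ j < k ∧ (k : ℝ) ≤ K ∧ m = k * p ∧ j * p ∈ E}

/-- candidates -/
def Cand (y : ℕ) (η : ℝ) (N : ℕ) : Set ℕ := {m | m ≤ N ∧ N < 2 * m ∧ ∃ k p : ℕ, Nice y k ∧ 2 ≤ k ∧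
  (k : ℝ) ≤ (N : ℝ) ^ η ∧ p.Prime ∧ m = k * p}

/-- the situation of a candidate with a block relation -/
structure Ctx (δ₂ η : ℝ) (y N m k p j b₂ b₃ b₄ B : ℕ) : Prop where
  rel : Rel m b₂ b₃ b₄ B
  hm : m = k * p
  hmN : m ≤ N
  hNm : N < 2 * m
  nice : Nice y k
  k2 : 2 ≤ k
  kN : (k : ℝ) ≤ (N : ℝ) ^ η
  pp : p.Prime
  l1 : ((m - b₂ : ℕ) : ℝ) ≤ (N : ℝ) ^ (1 - δ₂)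
  l2 : ((b₃ - b₄ : ℕ) : ℝ) ≤ (N : ℝ) ^ (1 - δ₂)
  hB : (B : ℝ) ≤ 6 * ((max (m - b₂) (b₃ - b₄) : ℕ) : ℝ) * Real.log N
  j1 : 1 ≤ j
  jk : j < k
  hj1 : b₄ < j * p
  hj2 : j * p ≤ b₃

/-! ### standard inputs (all proved in `Inputs.lean`) -/

/-- Chebyshev: primes in `(B/2, B]` -/
def ChebL : Prop := ∃ B₀ : ℕ, 2 ≤ B₀ ∧ ∀ B : ℕ, B₀ ≤ B →
  (B : ℝ) / 3 ≤ ∑ q ∈ (Ioc (B / 2) B).filter Nat.Prime, Real.log q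

/-- Mertens -/
def Mert : Prop := ∃ C : ℝ, ∀ N : ℕ, 1 ≤ N →
  |∑ p ∈ (Icc 1 N).filter Nat.Prime, Real.log p / p - Real.log N| ≤ C

/-! ### tasks -/

/-- TASK LS: large sieve in variance form, products of primes as moduli -/
def TaskLS : Prop := ∀ (X Q : ℕ) (P : Finset ℕ) (I : ℕ → Finset ℕ) (S : Finset (Finset ℕ))
  (w : Finset ℕ → ℝ), (∀ q ∈ P, q.Prime) → (∀ q ∈ P, I q ⊆ range q) →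
  (∀ s ∈ S, s ⊆ P ∧ ∏ q ∈ s, q ≤ Q) →
  ∑ n ∈ Icc 1 X, (∑ s ∈ S, w s * ∏ q ∈ s, ((if n % q ∈ I q then (1 : ℝ) else 0) - ((I q).card : ℝ) / q)) ^ 2
    ≤ 6 * ((X : ℝ) + (Q : ℝ) ^ 2) * ∑ s ∈ S, w s ^ 2 * ∏ q ∈ s, ((I q).card : ℝ) / q

/-- TASK REG: almost all `n₀` are regular -/
def TaskREG : Prop := TaskLS → Mert → ∀ η : ℝ, 0 < η → η ≤ 1 / 100 → ∀ θ : ℝ, η ≤ θ → θ ≤ 3 * η →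
  ∀ᶠ N : ℕ in atTop, ((E2 η θ N).ncard : ℝ) ≤ (N : ℝ) ^ (1 - θ + η / 2)

/-- TASK ALS: sieve bound for `p` in few classes modulo all primes in `(B/2, B]` -/
def TaskALS : Prop := TaskLS → ChebL → ∀ c₁ : ℝ, 0 < c₁ → ∃ η₀ : ℝ, 0 < η₀ ∧ ∀ η : ℝ, 0 < η → η ≤ η₀ →
  ∀ᶠ N : ℕ in atTop, ∀ k j l B : ℕ, 1 ≤ k → (k : ℝ) ≤ (N : ℝ) ^ η → 1 ≤ j → (j : ℝ) ≤ (N : ℝ) ^ η →
    1 ≤ l → (l : ℝ) ≤ (N : ℝ) ^ (3 * η) → c₁ * l * Real.log N ≤ B → (B : ℝ) ≤ 6 * l * Real.log N →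
    (({p : ℕ | 1 ≤ p ∧ p ≤ N ∧ ∀ q : ℕ, q.Prime → B < 2 * q → q ≤ B →
      ((∃ x, x < l ∧ x ≤ k * p ∧ q ∣ k * p - x) ∨ hit q (j * p) l)}).ncard : ℝ) ≤ (N : ℝ) ^ (2 / 3 : ℝ)

/-- TASK ALSU: union bound -/
def TaskALSU : Prop := TaskALS → TaskLS → ChebL → ∀ c₁ : ℝ, 0 < c₁ → ∃ η₀ : ℝ, 0 < η₀ ∧ ∀ η : ℝ, 0 < η → η ≤ η₀ →
  ∀ᶠ N : ℕ in atTop, ((E5 η c₁ N).ncard : ℝ) ≤ (N : ℝ) ^ (9 / 10 : ℝ)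

/-- TASK CHEB: size of a product of integers in a short interval around a regular point -/
def TaskCHEB : Prop := ∀ η : ℝ, 0 < η → η ≤ 1 / 100 → ∀ᶠ N : ℕ in atTop, ∀ w n₀ a b : ℕ,
  (N : ℝ) ^ η ≤ w → w ≤ N → a < b → b - a ≤ w → w ≤ 2 * (b - a) → b ≤ N → n₀ ≤ a + w → b < n₀ + w →
  Reg η N w n₀ → ∀ T : Finset ℕ, T ⊆ Ioc a b → ∀ R : ℝ,
  ∑ n ∈ T, ∑ q ∈ n.primeFactors.filter (fun q : ℕ => (w : ℝ) * (N : ℝ) ^ (2 * η) < (q : ℝ) ∧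
    Odd (n.factorization q)), Real.log q ≤ R →
  ∑ n ∈ T, Real.log n ≤ ((b - a : ℕ) : ℝ) * Real.log ((b - a : ℕ) : ℝ) +
    16 * η * ((b - a : ℕ) : ℝ) * Real.log N + R

/-- TASK SMOOTH -/
def TaskSMOOTH : Prop := Mert → ∀ ε : ℝ, 0 < ε → ∃ η₀ : ℝ, 0 < η₀ ∧ ∀ η : ℝ, 0 < η → η ≤ η₀ →
  ∀ᶠ N : ℕ in atTop, ((G η N).ncard : ℝ) ≤ ε * η * N

/-- TASK MAX: maximal inequality -/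
def TaskMAX : Prop := ∀ (η : ℝ) (N : ℕ), (E1 η N).ncard ≤ 4 * (G η N).ncard

/-- TASK KDEN: many nice `k` -/
def TaskKDEN : Prop := Mert → ∃ Y : ℕ, ∀ y : ℕ, Y ≤ y → ∃ c : ℝ, 0 < c ∧ ∀ᶠ K : ℕ in atTop, ∀ s : Finset ℕ,
  (∀ k, k ∈ s ↔ (2 ≤ k ∧ k ≤ K ∧ Nice y k)) → c * Real.log K ≤ ∑ k ∈ s, (1 : ℝ) / k

/-- TASK COUNT: many candidates -/
def TaskCOUNT : Prop := ChebL → ∀ (y : ℕ) (c : ℝ), 0 < c → (∀ᶠ K : ℕ in atTop, ∀ s : Finset ℕ,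
  (∀ k, k ∈ s ↔ (2 ≤ k ∧ k ≤ K ∧ Nice y k)) → c * Real.log K ≤ ∑ k ∈ s, (1 : ℝ) / k) →
  ∃ c' : ℝ, 0 < c' ∧ ∀ η : ℝ, 0 < η → η ≤ 1 / 10 → ∀ᶠ N : ℕ in atTop,
    c' * η * N ≤ ((Cand y η N).ncard : ℝ)

/-- TASK HOH: both blocks are short -/
def TaskHOH : Prop := Pool.Agent.H469R10.HO.Hoheisel → ∃ δ₂ : ℝ, 0 < δ₂ ∧ δ₂ ≤ 1 / 10 ∧
  ∀ᶠ N : ℕ in atTop, ∀ m b₂ b₃ b₄ B : ℕ, N < 2 * m → m ≤ N → Rel m b₂ b₃ b₄ B →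
    ((m - b₂ : ℕ) : ℝ) ≤ (N : ℝ) ^ (1 - δ₂) ∧ ((b₃ - b₄ : ℕ) : ℝ) ≤ (N : ℝ) ^ (1 - δ₂)

/-- TASK A3: `B` is small -/
def TaskA3 : Prop := ChebL → ∀ᶠ N : ℕ in atTop, ∀ m b₂ b₃ b₄ B : ℕ, m ≤ N → Rel m b₂ b₃ b₄ B →
  (B : ℝ) ≤ 6 * ((max (m - b₂) (b₃ - b₄) : ℕ) : ℝ) * Real.log N

/-- TASK NICE -/
def TaskNICE : Prop := ChebL → ∃ Y : ℕ, ∀ y : ℕ, Y ≤ y → ∀ k j B : ℕ, Nice y k → 1 ≤ j → j < k →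
  ¬ IsSquare (k * j * B.factorial)

/-- TASK STR -/
def TaskSTR : Prop := (∀ m : ℕ, m ∈ F 5 → ∃ b₂ b₃ b₄ B : ℕ, Rel m b₂ b₃ b₄ B) ∧
  (∀ k p : ℕ, 2 ≤ k → k + 1 < p → p.Prime → k * p ∈ F 6)

/-- TASK J: block 2 contains a multiple `j p` with `1 ≤ j < k` -/
def TaskJ : Prop := ∀ δ₂ η : ℝ, 0 < δ₂ → δ₂ ≤ 1 / 10 → 0 < η → η ≤ δ₂ / 100 → ∀ᶠ N : ℕ in atTop,
  ∀ m k p b₂ b₃ b₄ B : ℕ, Rel m b₂ b₃ b₄ B → m = k * p → m ≤ N → N < 2 * m → 2 ≤ k →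
    (k : ℝ) ≤ (N : ℝ) ^ η → p.Prime →
    ((m - b₂ : ℕ) : ℝ) ≤ (N : ℝ) ^ (1 - δ₂) → ((b₃ - b₄ : ℕ) : ℝ) ≤ (N : ℝ) ^ (1 - δ₂) →
    (B : ℝ) ≤ 6 * ((max (m - b₂) (b₃ - b₄) : ℕ) : ℝ) * Real.log N →
    ∃ j : ℕ, 1 ≤ j ∧ j < k ∧ b₄ < j * p ∧ j * p ≤ b₃

/-- TASK C1 (step C for block 1): large primes have even exponent in `m - x` unless `k / (k, j) ∣ x` -/
def TaskC1 : Prop := ∀ m k p j b₂ b₃ b₄ B : ℕ, Rel m b₂ b₃ b₄ B → m = k * p → 1 ≤ j → j < k →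
  b₄ < j * p → j * p ≤ b₃ → ∀ x : ℕ, x < m - b₂ → ¬ (k / k.gcd j) ∣ x →
  ∀ q : ℕ, q.Prime → B < q → 2 * k * max (m - b₂) (b₃ - b₄) < q → Even ((m - x).factorization q)

/-- TASK C2 (odd primes in block 2 divide block 1) -/
def TaskC2 : Prop := ∀ m b₂ b₃ b₄ B : ℕ, Rel m b₂ b₃ b₄ B → ∀ n ∈ Ioc b₄ b₃, ∀ q : ℕ, q.Prime →
  B < q → max (m - b₂) (b₃ - b₄) < q → Odd (n.factorization q) → q ∣ blk b₂ m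

/-- TASK C5 : primes in `(B/2, B]` divide one of the blocks -/
def TaskC5 : Prop := ∀ m b₂ b₃ b₄ B : ℕ, Rel m b₂ b₃ b₄ B → ∀ q : ℕ, q.Prime → B < 2 * q → q ≤ B →
  (∃ x, x < m - b₂ ∧ q ∣ m - x) ∨ (∃ n, b₄ < n ∧ n ≤ b₃ ∧ q ∣ n)

/-- TASK K1A : case 1, short block 1 -/
def TaskK1A : Prop := TaskC1 → ∀ δ₂ κ η : ℝ, 0 < δ₂ → δ₂ ≤ 1 / 10 → 0 < κ → 0 < η → η ≤ δ₂ / 100 →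
  ∀ᶠ N : ℕ in atTop, ∀ y m k p j b₂ b₃ b₄ B : ℕ, Ctx δ₂ η y N m k p j b₂ b₃ b₄ B →
    2 ≤ m - b₂ → κ * ((b₃ - b₄ : ℕ) : ℝ) ≤ ((m - b₂ : ℕ) : ℝ) → ((m - b₂ : ℕ) : ℝ) ≤ (N : ℝ) ^ η →
    m ∈ E1 η N

/-- TASK K1B : case 1, long block 1 -/
def TaskK1B : Prop := TaskC1 → TaskCHEB → ∀ δ₂ κ η : ℝ, 0 < δ₂ → δ₂ ≤ 1 / 10 → 0 < κ → 0 < η → η ≤ δ₂ / 100 →
  ∀ᶠ N : ℕ in atTop, ∀ y m k p j b₂ b₃ b₄ B : ℕ, Ctx δ₂ η y N m k p j b₂ b₃ b₄ B → 8 / δ₂ ≤ y →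
    κ * ((b₃ - b₄ : ℕ) : ℝ) ≤ ((m - b₂ : ℕ) : ℝ) → (N : ℝ) ^ η < ((m - b₂ : ℕ) : ℝ) →
    m ∈ E2 η η N

/-- TASK K2B : case 2, long block 2 -/
def TaskK2B : Prop := TaskC2 → TaskCHEB → ∀ δ₂ κ η : ℝ, 0 < δ₂ → δ₂ ≤ 1 / 10 → 0 < κ → κ ≤ δ₂ / 4 →
  0 < η → η ≤ δ₂ / 100 →
  ∀ᶠ N : ℕ in atTop, ∀ y m k p j b₂ b₃ b₄ B : ℕ, Ctx δ₂ η y N m k p j b₂ b₃ b₄ B →
    ((m - b₂ : ℕ) : ℝ) < κ * ((b₃ - b₄ : ℕ) : ℝ) → (N : ℝ) ^ (3 * η) < ((b₃ - b₄ : ℕ) : ℝ) →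
    j * p ∈ E2 η (3 * η) N

/-- TASK K2A : case 2, short block 2 -/
def TaskK2A : Prop := TaskC2 → Mert → ∀ δ₂ κ η : ℝ, 0 < δ₂ → δ₂ ≤ 1 / 10 → 0 < κ → κ ≤ 1 / 40 →
  0 < η → η ≤ δ₂ / 100 →
  ∀ᶠ N : ℕ in atTop, ∀ y m k p j b₂ b₃ b₄ B : ℕ, Ctx δ₂ η y N m k p j b₂ b₃ b₄ B →
    ((m - b₂ : ℕ) : ℝ) < κ * ((b₃ - b₄ : ℕ) : ℝ) → ((b₃ - b₄ : ℕ) : ℝ) ≤ (N : ℝ) ^ (3 * η) →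
    j * p ∉ E4 η N → 1 / 2 * ((b₃ - b₄ : ℕ) : ℝ) * Real.log N ≤ B

/-- TASK K3 : `ℓ₁ = 1`, `B` small, `ℓ₂ ≥ 2` -/
def TaskK3 : Prop := TaskC2 → ∀ δ₂ κ η : ℝ, 0 < δ₂ → δ₂ ≤ 1 / 10 → 0 < κ → 0 < η → η ≤ δ₂ / 100 →
  ∀ᶠ N : ℕ in atTop, ∀ y m k p j b₂ b₃ b₄ B : ℕ, Ctx δ₂ η y N m k p j b₂ b₃ b₄ B →
    m - b₂ = 1 → 2 ≤ b₃ - b₄ → κ * ((b₃ - b₄ : ℕ) : ℝ) ≤ 1 → (B : ℝ) ≤ Real.log N / 30 →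
    j * p ∈ E6 (1 / κ) N

/-- TASK LIFT -/
def TaskLIFT : Prop := ∀ (K : ℝ) (N : ℕ) (E : Set ℕ), 1 ≤ K → (∀ n ∈ E, n ≤ N) →
  ((Lift K N E).ncard : ℝ) ≤ K * (E.ncard : ℝ)

/-- TASK N4 -/
def TaskN4 : Prop := ∀ η : ℝ, 0 < η → η ≤ 1 / 100 → ∀ᶠ N : ℕ in atTop,
  ((E4 η N).ncard : ℝ) ≤ (N : ℝ) ^ (1 - 2 * η)

/-- TASK N6 -/
def TaskN6 : Prop := ∀ A : ℝ, 0 < A → ∀ᶠ N : ℕ in atTop, ((E6 A N).ncard : ℝ) ≤ (N : ℝ) ^ (7 / 10 : ℝ)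

end Pool.Agent.H295R3.D6
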