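import Pool.Agent.H295R3.D6.Stmts2
import Pool.Agent.H884R3.D6.TaskALSU

set_option autoImplicit false

open Finset Filter

namespace Pool.Agent.H295R3.D6

theorem numeric2 (γ η : ℝ) (hγ : 0 < γ) (hη1 : η ≤ γ / 32) : ∀ᶠ N : ℕ in atTop,
    (N : ℝ) ^ η * ((N : ℝ) ^ η * ((N : ℝ) ^ (3 * η) *
        (6 * (N : ℝ) ^ (3 * η) * Real.log N + 1))) * (N : ℝ) ^ (1 - γ) ≤
      (N : ℝ) ^ (1 - γ / 2) ∨ η ≤ 0 := by
  have h1 : ∀ᶠ x : ℝ in atTop, 6 * Real.log x + 1 ≤ x ^ (γ / 8) := by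
    have ha : Tendsto (fun x : ℝ => (6 * Real.log x + 1) / x ^ (γ / 8)) atTop (nhds 0) := by
      have hb : Tendsto (fun x : ℝ => Real.log x / x ^ (γ / 8)) atTop (nhds 0) :=
        (isLittleO_log_rpow_atTop (by positivity : (0 : ℝ) < γ / 8)).tendsto_div_nhds_zero
      have hc : Tendsto (fun x : ℝ => 1 / x ^ (γ / 8)) atTop (nhds 0) :=
        tendsto_const_nhds.div_atTop (tendsto_rpow_atTop (by positivity : (0 : ℝ) < γ / 8))
      have hd := (hb.const_mul 6).add hc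
      simp only [mul_zero, add_zero] at hd
      refine hd.congr fun x => ?_
      ring
    filter_upwards [ha.eventually_le_const (show (0 : ℝ) < 1 by norm_num), eventually_gt_atTop 0]
      with x hx hx0
    have hp : 0 < x ^ (γ / 8) := Real.rpow_pos_of_pos hx0 _
    rwa [div_le_one hp] at hx
  filter_upwards [tendsto_natCast_atTop_atTop.eventually h1, eventually_ge_atTop 3] with N hN hN3
  rcases le_or_gt η 0 with hη | hη
  · exact Or.inr hη
  left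
  have hN1 : (1 : ℝ) ≤ N := by exact_mod_cast (by omega : 1 ≤ N)
  have hN0 : (0 : ℝ) < N := by linarith
  have hlog : 0 ≤ Real.log N := Real.log_nonneg hN1
  have h2 : 6 * (N : ℝ) ^ (3 * η) * Real.log N + 1 ≤ (N : ℝ) ^ (3 * η) * (N : ℝ) ^ (γ / 8) := by
    have h3 : (1 : ℝ) ≤ (N : ℝ) ^ (3 * η) := Real.one_le_rpow hN1 (by positivity)
    calc 6 * (N : ℝ) ^ (3 * η) * Real.log N + 1 ≤
          (N : ℝ) ^ (3 * η) * (6 * Real.log N + 1) := by nlinarith
      _ ≤ _ := mul_le_mul_of_nonneg_left hN (by positivity)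
  calc (N : ℝ) ^ η * ((N : ℝ) ^ η * ((N : ℝ) ^ (3 * η) *
        (6 * (N : ℝ) ^ (3 * η) * Real.log N + 1))) * (N : ℝ) ^ (1 - γ)
      ≤ (N : ℝ) ^ η * ((N : ℝ) ^ η * ((N : ℝ) ^ (3 * η) *
        ((N : ℝ) ^ (3 * η) * (N : ℝ) ^ (γ / 8)))) * (N : ℝ) ^ (1 - γ) := by
        gcongr
    _ = (N : ℝ) ^ (η + (η + (3 * η + (3 * η + γ / 8))) + (1 - γ)) := by
        rw [Real.rpow_add hN0, Real.rpow_add hN0, Real.rpow_add hN0, Real.rpow_add hN0,
          Real.rpow_add hN0]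
    _ ≤ (N : ℝ) ^ (1 - γ / 2) := by
        refine Real.rpow_le_rpow_of_exponent_le hN1 ?_
        linarith

theorem taskALSU2 : TaskALSU2 := by
  intro hALS hLS hCh c₁ hc₁
  obtain ⟨γ, hγ, η₁, hη₁, h⟩ := hALS hLS hCh c₁ hc₁
  refine ⟨γ / 2, by positivity, min η₁ (γ / 32), lt_min hη₁ (by positivity), ?_⟩
  intro η hη hηle
  filter_upwards [h η hη (hηle.trans (min_le_left _ _)),
    numeric2 γ η hγ (hηle.trans (min_le_right _ _)), eventually_ge_atTop 3] with N h1 h2 h3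
  rcases h2 with h2 | h2
  · exact (Pool.Agent.H884R3.D6.union_bound η c₁ N hη h3 ((N : ℝ) ^ (1 - γ)) (by positivity) h1).trans h2
  · linarith

end Pool.Agent.H295R3.D6
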