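import Pool.Agent.H295R3.D6.Stmts2

set_option autoImplicit false

open Finset Filter

namespace Pool.Agent.H295R3.D6

lemma pow_small (θ ε : ℝ) (hθ : 0 < θ) (hε : 0 < ε) :
    ∀ᶠ N : ℕ in atTop, (N : ℝ) ^ (1 - θ) ≤ ε * N := by
  have h := (tendsto_rpow_neg_atTop hθ).comp (tendsto_natCast_atTop_atTop (R := ℝ))
  have h2 := h.eventually (gt_mem_nhds hε)
  filter_upwards [h2, eventually_ge_atTop 1] with N hN hN1
  have hN0 : (0 : ℝ) < N := by exact_mod_cast hN1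
  rw [show (1 - θ : ℝ) = -θ + 1 by ring, Real.rpow_add hN0, Real.rpow_one]
  exact mul_le_mul_of_nonneg_right (le_of_lt hN) hN0.le

lemma const_le_pow (θ A : ℝ) (hθ : 0 < θ) :
    ∀ᶠ N : ℕ in atTop, A ≤ (N : ℝ) ^ θ := by
  have h := (tendsto_rpow_atTop hθ).comp (tendsto_natCast_atTop_atTop (R := ℝ))
  exact h.eventually (eventually_ge_atTop A)

lemma mem_lift {K : ℝ} {N m k p j : ℕ} {E : Set ℕ} (hm1 : 1 ≤ m) (hmN : m ≤ N) (hp : p.Prime)
    (hKp : K < p) (hj : 1 ≤ j) (hjk : j < k) (hkK : (k : ℝ) ≤ K) (hm : m = k * p)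
    (hE : j * p ∈ E) : m ∈ Lift K N E :=
  ⟨hm1, hmN, k, p, j, hp, hKp, hj, hjk, hkK, hm, hE⟩

lemma mem_E5 (hC5 : TaskC5) {δ₂ η c₁ : ℝ} {y N m k p j b₂ b₃ b₄ B : ℕ}
    (h : Ctx δ₂ η y N m k p j b₂ b₃ b₄ B) (h12 : m - b₂ ≤ b₃ - b₄)
    (hl : ((b₃ - b₄ : ℕ) : ℝ) ≤ (N : ℝ) ^ (3 * η))
    (hB : c₁ * ((b₃ - b₄ : ℕ) : ℝ) * Real.log N ≤ B) : m ∈ E5 η c₁ N := by
  obtain ⟨rel, hm, hmN, hNm, nice, k2, kN, pp, l1, l2, hB', j1, jk, hj1, hj2⟩ := h
  refine ⟨by omega, hmN, k, p, j, b₃ - b₄, B, hm, by omega, kN, j1, ?_, by omega, hl, hB, ?_, ?_⟩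
  · have : (j : ℝ) ≤ k := by exact_mod_cast jk.le
    linarith
  · rwa [max_eq_right h12] at hB'
  · intro q hq h1 h2
    rcases hC5 m b₂ b₃ b₄ B rel q hq h1 h2 with ⟨x, hx, hqx⟩ | ⟨n, hn1, hn2, hqn⟩
    · left
      refine ⟨x, by omega, ?_, ?_⟩
      · rw [← hm]; omega
      · rw [← hm]; exact hqx
    · right
      exact ⟨n, hqn, by omega, by omega⟩

lemma isSquare_cancel {p k j f : ℕ} (hp : p ≠ 0) (h : IsSquare ((k * p) * (j * p) * f)) :
    IsSquare (k * j * f) := by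
  obtain ⟨r, hr⟩ := h
  have h1 : p ^ 2 ∣ r ^ 2 := ⟨k * j * f, by rw [sq r, ← hr]; ring⟩
  rw [Nat.pow_dvd_pow_iff (by norm_num)] at h1
  obtain ⟨s, rfl⟩ := h1
  refine ⟨s, ?_⟩
  have h2 : p ^ 2 * (k * j * f) = p ^ 2 * (s * s) := by
    have : p ^ 2 * (k * j * f) = (k * p) * (j * p) * f := by ring
    rw [this, hr]; ring
  exact Nat.eq_of_mul_eq_mul_left (by positivity) h2

lemma blk_succ (a : ℕ) : blk a (a + 1) = a + 1 := by
  unfold blk
  rw [Nat.Ioc_succ_singleton, Finset.prod_singleton]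

theorem assembly (hLS : TaskLS) (hREG : TaskREG) (hALS : TaskALS2) (hALSU : TaskALSU2)
    (hCHEB : TaskCHEB) (hSM : TaskSMOOTH) (hMAX : TaskMAX) (hKD : TaskKDEN) (hCO : TaskCOUNT)
    (hHOH : TaskHOH) (hA3 : TaskA3) (hNI : TaskNICE) (hSTR : TaskSTR) (hJ : TaskJ) (hC1 : TaskC1)
    (hC2 : TaskC2) (hC5 : TaskC5) (hK1A : TaskK1A) (hK1B : TaskK1B) (hK2B : TaskK2B)
    (hK2A : TaskK2A) (hK3 : TaskK3) (hLIFT : TaskLIFT) (hN4 : TaskN4) (hN6 : TaskN6)
    (hCh : ChebL) (hM : Mert) (hHo : Pool.Agent.H469R10.HO.Hoheisel) :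
    ∃ c : ℝ, 0 < c ∧ ∀ᶠ n : ℕ in atTop, c * n < (((F 6 \ F 5) ∩ Set.Icc 1 n).ncard : ℝ) := by
  obtain ⟨δ₂, hδ0, hδ1, h1⟩ := hHOH hHo
  obtain ⟨Yn, hYn⟩ := hNI hCh
  obtain ⟨Yk, hYk⟩ := hKD hM
  set y := max (max Yn Yk) ⌈8 / δ₂⌉₊ with hy
  have hyn : Yn ≤ y := by rw [hy]; exact le_max_of_le_left (le_max_left _ _)
  have hyk : Yk ≤ y := by rw [hy]; exact le_max_of_le_left (le_max_right _ _)
  have hyδ : 8 / δ₂ ≤ (y : ℝ) :=
    (Nat.le_ceil _).trans (by exact_mod_cast (le_max_right (max Yn Yk) ⌈8 / δ₂⌉₊))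
  obtain ⟨c, hc, hck⟩ := hYk y hyk
  obtain ⟨c', hc', hcand⟩ := hCO hCh y c hc hck
  set κ : ℝ := δ₂ / 4 with hκ
  have hκ0 : 0 < κ := by rw [hκ]; positivity
  have hκ40 : κ ≤ 1 / 40 := by rw [hκ]; linarith
  obtain ⟨η1, hη1, hsm⟩ := hSM hM (c' / 16) (by positivity)
  obtain ⟨γ, hγ, η2, hη2, hE5⟩ := hALSU hALS hLS hCh (κ / 30) (by positivity)
  set η : ℝ := min (min η1 (min η2 γ)) (δ₂ / 100) with hη
  have hη0 : 0 < η := by rw [hη]; refine lt_min (lt_min hη1 (lt_min hη2 hγ)) (by positivity)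
  have hηδ : η ≤ δ₂ / 100 := by rw [hη]; exact min_le_right _ _
  have hη1' : η ≤ η1 := by rw [hη]; exact (min_le_left _ _).trans (min_le_left _ _)
  have hη2' : η ≤ η2 := by
    rw [hη]; exact (min_le_left _ _).trans ((min_le_right _ _).trans (min_le_left _ _))
  have hηγ : η ≤ γ := by
    rw [hη]; exact (min_le_left _ _).trans ((min_le_right _ _).trans (min_le_right _ _))
  have hη3 : η ≤ 1 / 1000 := by linarith
  refine ⟨c' * η / 4, by positivity, ?_⟩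
  filter_upwards [h1, hA3 hCh, hcand η hη0 (by linarith), hsm η hη0 hη1', hE5 η hη0 hη2',
    hREG hLS hM η hη0 (by linarith) η le_rfl (by linarith),
    hREG hLS hM η hη0 (by linarith) (3 * η) (by linarith) le_rfl,
    hJ δ₂ η hδ0 hδ1 hη0 hηδ,
    hK1A hC1 δ₂ κ η hδ0 hδ1 hκ0 hη0 hηδ,
    hK1B hC1 hCHEB δ₂ κ η hδ0 hδ1 hκ0 hη0 hηδ,
    hK2B hC2 hCHEB δ₂ κ η hδ0 hδ1 hκ0 le_rfl hη0 hηδ,
    hK2A hC2 hM δ₂ κ η hδ0 hδ1 hκ0 hκ40 hη0 hηδ,
    hK3 hC2 δ₂ κ η hδ0 hδ1 hκ0 hη0 hηδ,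
    hN4 η hη0 (by linarith), hN6 (1 / κ) (by positivity),
    pow_small (η / 2) (c' * η / 40) (by positivity) (by positivity),
    pow_small (1 - 2 * η) (1 / 8) (by linarith) (by norm_num),
    const_le_pow (3 * η) (1 / κ) (by positivity),
    eventually_ge_atTop 2] with N e1 eA3 ecand esm eE5 eR1 eR3 eJ eK1A eK1B eK2B eK2A eK3 eN4 eN6
      epow epow2 econst hN2
  have hNr : (2 : ℝ) ≤ N := by exact_mod_cast hN2
  have hN0 : (0 : ℝ) < N := by linarith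
  have hN1 : (1 : ℝ) ≤ N := by linarith
  have hK1 : (1 : ℝ) ≤ (N : ℝ) ^ η := Real.one_le_rpow hN1 hη0.le
  have hlogN : 0 < Real.log N := Real.log_pos (by linarith)
  -- the bad set
  set K : ℝ := (N : ℝ) ^ η with hK
  set Bad : Set ℕ := E1 η N ∪ (E2 η η N ∪ (Lift K N (E2 η (3 * η) N) ∪ (Lift K N (E4 η N) ∪
    (E5 η (κ / 30) N ∪ Lift K N (E6 (1 / κ) N))))) with hBad
  -- K^2 <= N/8
  have hKK : K * K ≤ N / 8 := by
    have : K * K = (N : ℝ) ^ (1 - (1 - 2 * η)) := by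
      rw [hK, ← Real.rpow_add hN0]
      congr 1
      ring
    rw [this]
    linarith
  have hsub : Cand y η N \ Bad ⊆ (F 6 \ F 5) ∩ Set.Icc 1 N := by
    rintro m ⟨⟨hmN, hNm, k, p, hnice, hk2, hkN, hp, hm⟩, hmB⟩
    have hm1 : 1 ≤ m := by omega
    have hkp : (N : ℝ) < 2 * ((k : ℝ) * p) := by
      have : (N : ℝ) < ((2 * m : ℕ) : ℝ) := by exact_mod_cast hNm
      rw [hm] at this
      push_cast at this
      exact this
    have hk0 : (0 : ℝ) < k := by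
      have : 0 < k := by omega
      exact_mod_cast this
    have hKp : K + 1 < p := by
      by_contra hcon
      push Not at hcon
      have h2 : (k : ℝ) * p ≤ K * (K + 1) := by
        apply mul_le_mul hkN hcon (by positivity) (by linarith)
      nlinarith
    have hk1p : k + 1 < p := by
      have : ((k + 1 : ℕ) : ℝ) < p := by push_cast; linarith
      exact_mod_cast this
    refine ⟨⟨?_, ?_⟩, hm1, hmN⟩
    · rw [hm]; exact hSTR.2 k p hk2 hk1p hp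
    intro hF5
    obtain ⟨b₂, b₃, b₄, B, hrel⟩ := hSTR.1 m hF5
    obtain ⟨hl1, hl2⟩ := e1 m b₂ b₃ b₄ B hNm hmN hrel
    have hB := eA3 m b₂ b₃ b₄ B hmN hrel
    obtain ⟨j, hj1, hjk, hjb, hjb'⟩ := eJ m k p b₂ b₃ b₄ B hrel hm hmN hNm hk2 hkN hp hl1 hl2 hB
    have ctx : Ctx δ₂ η y N m k p j b₂ b₃ b₄ B :=
      ⟨hrel, hm, hmN, hNm, hnice, hk2, hkN, hp, hl1, hl2, hB, hj1, hjk, hjb, hjb'⟩
    have hb2 : b₂ < m := hrel.2.2.2.1
    have hlift : ∀ E : Set ℕ, j * p ∈ E → m ∈ Lift K N E := fun E hE =>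
      mem_lift hm1 hmN hp (by linarith) hj1 hjk hkN hm hE
    simp only [hBad, Set.mem_union, not_or] at hmB
    obtain ⟨n1, n2, n3, n4, n5, n6⟩ := hmB
    by_cases hcase : κ * ((b₃ - b₄ : ℕ) : ℝ) ≤ ((m - b₂ : ℕ) : ℝ)
    · by_cases h2 : 2 ≤ m - b₂
      · by_cases hs : ((m - b₂ : ℕ) : ℝ) ≤ (N : ℝ) ^ η
        · exact n1 (eK1A y m k p j b₂ b₃ b₄ B ctx h2 hcase hs)
        · exact n2 (eK1B y m k p j b₂ b₃ b₄ B ctx hyδ hcase (not_le.1 hs))
      · have hone : m - b₂ = 1 := by omega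
        rw [hone] at hcase
        push_cast at hcase
        by_cases hBs : (B : ℝ) ≤ Real.log N / 30
        · by_cases h22 : 2 ≤ b₃ - b₄
          · exact n6 (hlift _ (eK3 y m k p j b₂ b₃ b₄ B ctx hone h22 hcase hBs))
          · -- both blocks are singletons
            have e1 : m = b₂ + 1 := by omega
            have e3 : b₃ = b₄ + 1 := by omega
            have e4 : j * p = b₄ + 1 := by omega
            have hsq := hrel.2.2.2.2
            rw [e3, blk_succ, ← e4] at hsq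
            have e5 : blk b₂ m = k * p := by rw [e1, blk_succ, ← e1, hm]
            rw [e5] at hsq
            exact hYn y hyn k j B hnice hj1 hjk (isSquare_cancel hp.ne_zero hsq)
        · have hl' : ((b₃ - b₄ : ℕ) : ℝ) ≤ 1 / κ := by
            rw [le_div_iff₀ hκ0]; linarith
          refine n5 (mem_E5 hC5 ctx (by omega) (hl'.trans econst) ?_)
          push Not at hBs
          have : κ / 30 * ((b₃ - b₄ : ℕ) : ℝ) * Real.log N =
            (κ * ((b₃ - b₄ : ℕ) : ℝ)) * (Real.log N / 30) := by ring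
          rw [this]
          have h5 : (κ * ((b₃ - b₄ : ℕ) : ℝ)) * (Real.log N / 30) ≤ 1 * (Real.log N / 30) :=
            mul_le_mul_of_nonneg_right hcase (by positivity)
          linarith
    · push Not at hcase
      by_cases hs : ((b₃ - b₄ : ℕ) : ℝ) ≤ (N : ℝ) ^ (3 * η)
      · have h4 : j * p ∉ E4 η N := fun h => n4 (hlift _ h)
        have hBl := eK2A y m k p j b₂ b₃ b₄ B ctx hcase hs h4
        have h0 : (0 : ℝ) ≤ ((b₃ - b₄ : ℕ) : ℝ) := by positivity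
        refine n5 (mem_E5 hC5 ctx ?_ hs ?_)
        · have : ((m - b₂ : ℕ) : ℝ) ≤ ((b₃ - b₄ : ℕ) : ℝ) := by nlinarith
          exact_mod_cast this
        · refine le_trans ?_ hBl
          apply mul_le_mul_of_nonneg_right _ hlogN.le
          apply mul_le_mul_of_nonneg_right _ h0
          linarith
      · exact n3 (hlift _ (eK2B y m k p j b₂ b₃ b₄ B ctx hcase (not_le.1 hs)))
  -- counting
  have hfinI : (Set.Icc 1 N : Set ℕ).Finite := Set.finite_Icc 1 N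
  have hBadfin : Bad.Finite := by
    apply hfinI.subset
    rw [hBad]
    intro m hm
    simp only [Set.mem_union] at hm
    rcases hm with h | h | h | h | h | h
    · exact ⟨h.1, h.2.1⟩
    · exact ⟨h.1, h.2.1⟩
    · exact ⟨h.1, h.2.1⟩
    · exact ⟨h.1, h.2.1⟩
    · exact ⟨h.1, h.2.1⟩
    · exact ⟨h.1, h.2.1⟩
  have hcard1 : (Cand y η N).ncard ≤ ((F 6 \ F 5) ∩ Set.Icc 1 N).ncard + Bad.ncard := by
    have hfin2 : ((F 6 \ F 5) ∩ Set.Icc 1 N).Finite := hfinI.subset Set.inter_subset_right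
    refine le_trans (Set.ncard_le_ncard (t := ((F 6 \ F 5) ∩ Set.Icc 1 N) ∪ Bad) ?_ (hfin2.union hBadfin))
      (Set.ncard_union_le _ _)
    intro m hm
    by_cases hb : m ∈ Bad
    · exact Or.inr hb
    · exact Or.inl (hsub ⟨hm, hb⟩)
  have hBadcard : Bad.ncard ≤ (E1 η N).ncard + ((E2 η η N).ncard + ((Lift K N (E2 η (3 * η) N)).ncard +
      ((Lift K N (E4 η N)).ncard + ((E5 η (κ / 30) N).ncard + (Lift K N (E6 (1 / κ) N)).ncard)))) := by
    rw [hBad]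
    refine (Set.ncard_union_le _ _).trans (Nat.add_le_add_left ?_ _)
    refine (Set.ncard_union_le _ _).trans (Nat.add_le_add_left ?_ _)
    refine (Set.ncard_union_le _ _).trans (Nat.add_le_add_left ?_ _)
    refine (Set.ncard_union_le _ _).trans (Nat.add_le_add_left ?_ _)
    exact Set.ncard_union_le _ _
  have c1 : ((E1 η N).ncard : ℝ) ≤ 4 * (c' / 16 * η * N) := by
    have : ((E1 η N).ncard : ℝ) ≤ ((4 * (G η N).ncard : ℕ) : ℝ) := by exact_mod_cast hMAX η N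
    push_cast at this
    linarith
  have hmono : ∀ a : ℝ, a ≤ 1 - η / 2 → (N : ℝ) ^ a ≤ c' * η / 40 * N := fun a ha =>
    (Real.rpow_le_rpow_of_exponent_le hN1 ha).trans epow
  have c2 : ((E2 η η N).ncard : ℝ) ≤ c' * η / 40 * N := eR1.trans (hmono _ (by linarith))
  have hmulK : ∀ a : ℝ, K * (N : ℝ) ^ a = (N : ℝ) ^ (η + a) := fun a => by
    rw [hK, ← Real.rpow_add hN0]
  have c3 : ((Lift K N (E2 η (3 * η) N)).ncard : ℝ) ≤ c' * η / 40 * N := by
    refine (hLIFT K N _ hK1 (fun n hn => hn.2.1)).trans ?_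
    refine (mul_le_mul_of_nonneg_left eR3 (by linarith)).trans ?_
    rw [hmulK]
    exact hmono _ (by linarith)
  have c4 : ((Lift K N (E4 η N)).ncard : ℝ) ≤ c' * η / 40 * N := by
    refine (hLIFT K N _ hK1 (fun n hn => hn.2.1)).trans ?_
    refine (mul_le_mul_of_nonneg_left eN4 (by linarith)).trans ?_
    rw [hmulK]
    exact hmono _ (by linarith)
  have c5 : ((E5 η (κ / 30) N).ncard : ℝ) ≤ c' * η / 40 * N := eE5.trans (hmono _ (by linarith))
  have c6 : ((Lift K N (E6 (1 / κ) N)).ncard : ℝ) ≤ c' * η / 40 * N := by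
    refine (hLIFT K N _ hK1 (fun n hn => hn.2.1)).trans ?_
    refine (mul_le_mul_of_nonneg_left eN6 (by linarith)).trans ?_
    rw [hmulK]
    exact hmono _ (by linarith)
  have t1 : ((Cand y η N).ncard : ℝ) ≤ (((F 6 \ F 5) ∩ Set.Icc 1 N).ncard : ℝ) + (Bad.ncard : ℝ) := by
    exact_mod_cast hcard1
  have t2 : (Bad.ncard : ℝ) ≤ (E1 η N).ncard + ((E2 η η N).ncard + ((Lift K N (E2 η (3 * η) N)).ncard +
      ((Lift K N (E4 η N)).ncard + ((E5 η (κ / 30) N).ncard + (Lift K N (E6 (1 / κ) N)).ncard)))) := by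
    exact_mod_cast hBadcard
  have hpos : 0 < c' * η * N := by positivity
  nlinarith

end Pool.Agent.H295R3.D6
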