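import Mathlib
import Pool.Agent.Helper923.PNT
import Pool.Agent.H295R3.D6.Stmts

set_option autoImplicit false

open Finset Filter Topology

namespace Pool.Agent.H295R3.D6

theorem theta_diff (B : ℕ) :
    Chebyshev.theta (B : ℝ) - Chebyshev.theta ((B / 2 : ℕ) : ℝ) =
      ∑ q ∈ (Ioc (B / 2) B).filter Nat.Prime, Real.log q := by
  unfold Chebyshev.theta
  rw [Nat.floor_natCast, Nat.floor_natCast]
  have hd : Disjoint ((Ioc 0 (B / 2)).filter Nat.Prime) ((Ioc (B / 2) B).filter Nat.Prime) := by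
    rw [Finset.disjoint_left]
    intro a ha hb
    simp only [mem_filter, mem_Ioc] at ha hb
    omega
  have hu : (Ioc 0 B).filter Nat.Prime =
      ((Ioc 0 (B / 2)).filter Nat.Prime) ∪ ((Ioc (B / 2) B).filter Nat.Prime) := by
    ext a
    simp only [mem_filter, mem_Ioc, mem_union]
    have : B / 2 ≤ B := Nat.div_le_self B 2
    constructor
    · rintro ⟨h1, h2⟩
      by_cases h : a ≤ B / 2
      · left; exact ⟨⟨h1.1, h⟩, h2⟩
      · right; exact ⟨⟨by omega, h1.2⟩, h2⟩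
    · rintro (⟨h1, h2⟩ | ⟨h1, h2⟩)
      · exact ⟨⟨h1.1, by omega⟩, h2⟩
      · exact ⟨⟨by omega, h1.2⟩, h2⟩
  rw [hu, Finset.sum_union hd]
  ring

theorem chebL : ChebL := by
  have h := Pool.Agent.Helper923.PNT.theta_div_tendsto
  rw [Metric.tendsto_atTop] at h
  obtain ⟨N, hN⟩ := h (1 / 10) (by norm_num)
  obtain ⟨M, hM⟩ := exists_nat_ge (max N 1)
  have hM1 : (1 : ℝ) ≤ M := le_trans (le_max_right _ _) hM
  have hMN : N ≤ M := le_trans (le_max_left _ _) hM
  refine ⟨2 * M + 2, by omega, ?_⟩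
  intro B hB
  have key : ∀ x : ℕ, M ≤ x → |Chebyshev.theta (x : ℝ) - x| ≤ (1 / 10) * x := by
    intro x hx
    have hx' : (M : ℝ) ≤ x := by exact_mod_cast hx
    have hpos : (0 : ℝ) < x := by linarith
    have h1 := hN x (by linarith)
    rw [Real.dist_eq] at h1
    have h2 : Chebyshev.theta (x : ℝ) / x - 1 = (Chebyshev.theta (x : ℝ) - x) / x := by
      field_simp
    rw [h2, abs_div, abs_of_pos hpos, div_lt_iff₀ hpos] at h1
    exact h1.le
  have k1 := key B (by omega)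
  have k2 := key (B / 2) (by omega)
  rw [abs_le] at k1 k2
  rw [← theta_diff]
  have h3 : ((B / 2 : ℕ) : ℝ) ≤ (B : ℝ) / 2 := Nat.cast_div_le
  have h4 : (0 : ℝ) ≤ ((B / 2 : ℕ) : ℝ) := Nat.cast_nonneg _
  have h5 : (0 : ℝ) ≤ (B : ℝ) := Nat.cast_nonneg _
  nlinarith [k1.1, k2.2]

end Pool.Agent.H295R3.D6
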