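import Mathlib
import Pool.Agent.H295R3.D6.Stmts

set_option autoImplicit false

open Finset Filter

namespace Pool.Agent.H295R3.D6.Smooth

noncomputable def wt (P : Finset ℕ) (n : ℕ) : ℝ := ∑ p ∈ P, if p ∣ n then Real.log p else 0

theorem card_dvd_le (N d : ℕ) (hd : 0 < d) :
    (((Icc 1 N).filter (fun n => d ∣ n)).card : ℝ) ≤ (N : ℝ) / d := by
  have h1 : ((Icc 1 N).filter (fun n => d ∣ n)).card = N / d := by
    have := Nat.Ioc_filter_dvd_card_eq_div N d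
    rw [← this]
    congr 1
  rw [h1]
  exact Nat.cast_div_le

theorem count_le (N p q : ℕ) (hp : p.Prime) (hq : q.Prime) :
    (((Icc 1 N).filter (fun n => p ∣ n ∧ q ∣ n)).card : ℝ)
      ≤ (N : ℝ) / (p * q) + if p = q then (N : ℝ) / p else 0 := by
  by_cases h : p = q
  · subst h
    simp only [and_self, if_true]
    have h1 := card_dvd_le N p hp.pos
    have h2 : (0 : ℝ) ≤ (N : ℝ) / (p * p) := by positivity
    linarith
  · simp only [h, if_false, add_zero]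
    have hc : Nat.Coprime p q := (Nat.coprime_primes hp hq).2 h
    have h1 := card_dvd_le N (p * q) (Nat.mul_pos hp.pos hq.pos)
    refine le_trans ?_ (le_trans h1 (le_of_eq (by push_cast; rfl)))
    exact_mod_cast card_le_card (fun n hn => by
      simp only [mem_filter] at hn ⊢
      exact ⟨hn.1, hc.mul_dvd_of_dvd_of_dvd hn.2.1 hn.2.2⟩)

theorem second_moment (N : ℕ) (P : Finset ℕ) (hP : ∀ p ∈ P, p.Prime) (L : ℝ)
    (hL : ∀ p ∈ P, Real.log p ≤ L) :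
    ∑ n ∈ Icc 1 N, (wt P n) ^ 2
      ≤ N * ((∑ p ∈ P, Real.log p / p) ^ 2 + L * ∑ p ∈ P, Real.log p / p) := by
  have h1 : ∀ n : ℕ, (wt P n) ^ 2
      = ∑ p ∈ P, ∑ q ∈ P, if (p ∣ n ∧ q ∣ n) then Real.log p * Real.log q else 0 := by
    intro n
    unfold wt
    rw [sq, sum_mul_sum]
    refine sum_congr rfl fun p _ => sum_congr rfl fun q _ => ?_
    by_cases hp : p ∣ n <;> by_cases hq : q ∣ n <;> simp [hp, hq]
  have hlog : ∀ p ∈ P, 0 ≤ Real.log (p : ℝ) := fun p hp =>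
    Real.log_natCast_nonneg p
  calc ∑ n ∈ Icc 1 N, (wt P n) ^ 2
      = ∑ n ∈ Icc 1 N, ∑ p ∈ P, ∑ q ∈ P,
          (if (p ∣ n ∧ q ∣ n) then Real.log p * Real.log q else 0) :=
        sum_congr rfl fun n _ => h1 n
    _ = ∑ p ∈ P, ∑ q ∈ P, ∑ n ∈ Icc 1 N,
          (if (p ∣ n ∧ q ∣ n) then Real.log p * Real.log q else 0) := by
        rw [sum_comm]
        refine sum_congr rfl fun p _ => ?_
        rw [sum_comm]
    _ = ∑ p ∈ P, ∑ q ∈ P, (((Icc 1 N).filter (fun n => p ∣ n ∧ q ∣ n)).card : ℝ)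
          * (Real.log p * Real.log q) := by
        refine sum_congr rfl fun p _ => sum_congr rfl fun q _ => ?_
        rw [← sum_filter, sum_const, nsmul_eq_mul]
    _ ≤ ∑ p ∈ P, ∑ q ∈ P, ((N : ℝ) / (p * q) + if p = q then (N : ℝ) / p else 0)
          * (Real.log p * Real.log q) := by
        refine sum_le_sum fun p hp => sum_le_sum fun q hq => ?_
        exact mul_le_mul_of_nonneg_right (count_le N p q (hP p hp) (hP q hq))
          (mul_nonneg (hlog p hp) (hlog q hq))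
    _ = N * (∑ p ∈ P, Real.log p / p) ^ 2 + ∑ p ∈ P, (N : ℝ) / p * (Real.log p * Real.log p) := by
        rw [sq, sum_mul_sum, mul_sum]
        rw [← sum_add_distrib]
        refine sum_congr rfl fun p hp => ?_
        rw [mul_sum]
        have : ∑ q ∈ P, ((N : ℝ) / (p * q) + if p = q then (N : ℝ) / p else 0)
            * (Real.log p * Real.log q)
            = ∑ q ∈ P, ((N : ℝ) * (Real.log p / p * (Real.log q / q)))
              + ∑ q ∈ P, (if p = q then (N : ℝ) / p * (Real.log p * Real.log q) else 0) := by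
          rw [← sum_add_distrib]
          refine sum_congr rfl fun q hq => ?_
          have hp0 : (p : ℝ) ≠ 0 := by exact_mod_cast (hP p hp).ne_zero
          have hq0 : (q : ℝ) ≠ 0 := by exact_mod_cast (hP q hq).ne_zero
          by_cases h : p = q
          · simp only [h, if_true]
            rw [add_mul]
            congr 1
            field_simp
          · simp only [h, if_false, add_zero]
            field_simp
        rw [this, sum_ite_eq]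
        simp [hp]
    _ ≤ N * (∑ p ∈ P, Real.log p / p) ^ 2 + N * (L * ∑ p ∈ P, Real.log p / p) := by
        gcongr
        rw [mul_sum, mul_sum]
        refine sum_le_sum fun p hp => ?_
        have hp0 : (0 : ℝ) < p := by exact_mod_cast (hP p hp).pos
        have h3 := mul_le_mul_of_nonneg_right (hL p hp) (hlog p hp)
        have h4 : (N : ℝ) / p * (Real.log p * Real.log p) ≤ (N : ℝ) / p * (L * Real.log p) :=
          mul_le_mul_of_nonneg_left h3 (by positivity)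
        refine h4.trans (le_of_eq ?_)
        field_simp
    _ = _ := by ring

/-- squarefree part -/
theorem exists_sf (η : ℝ) (N n : ℕ) (hn : n ∈ G η N) :
    ∃ s t : ℕ, 1 ≤ s ∧ 1 ≤ t ∧ n = s * t ^ 2 ∧
      Real.log s ≤ wt ((Icc 1 ⌊(N : ℝ) ^ (3 * η)⌋₊).filter Nat.Prime) n := by
  obtain ⟨h1, hN, hG⟩ := hn
  obtain ⟨a, b, hab, hsf⟩ := Nat.sq_mul_squarefree n
  have ha : a ≠ 0 := by rintro rfl; simp at hab; omega
  have hb : b ≠ 0 := by rintro rfl; simp at hab; omega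
  refine ⟨a, b, by omega, by omega, by rw [← hab]; ring, ?_⟩
  have hfac : ∀ q : ℕ, q.Prime → q ∣ a → n.factorization q = 2 * b.factorization q + 1 := by
    intro q hq hqa
    rw [← hab, Nat.factorization_mul (pow_ne_zero 2 hb) ha, Nat.factorization_pow]
    have : a.factorization q = 1 := by
      have h2 := hsf.natFactorization_le_one q
      have h3 := hq.factorization_pos_of_dvd ha hqa
      omega
    simp [this]
  have hsub : a.primeFactors ⊆ ((Icc 1 ⌊(N : ℝ) ^ (3 * η)⌋₊).filter Nat.Prime).filter (fun p => p ∣ n) := by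
    intro q hq
    have hqp := Nat.prime_of_mem_primeFactors hq
    have hqa := Nat.dvd_of_mem_primeFactors hq
    simp only [mem_filter, mem_Icc]
    refine ⟨⟨⟨hqp.one_le, ?_⟩, hqp⟩, hqa.trans ⟨b ^ 2, by rw [← hab]; ring⟩⟩
    apply Nat.le_floor
    by_contra hlt
    push Not at hlt
    have h5 := hG q hqp hlt
    rw [hfac q hqp hqa] at h5
    exact (Nat.not_even_iff_odd.2 ⟨_, rfl⟩) h5
  have hprod : ∏ p ∈ a.primeFactors, p = a := Nat.prod_primeFactors_of_squarefree hsf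
  have hloga : Real.log a = ∑ p ∈ a.primeFactors, Real.log p := by
    conv_lhs => rw [← hprod]
    push_cast
    rw [Real.log_prod]
    intro p hp
    exact_mod_cast (Nat.prime_of_mem_primeFactors hp).ne_zero
  rw [hloga]
  unfold wt
  rw [← sum_filter]
  exact sum_le_sum_of_subset_of_nonneg hsub fun p _ _ => Real.log_natCast_nonneg p

theorem small_part (N : ℕ) :
    ({n : ℕ | 1 ≤ n ∧ n ≤ N ∧ ∃ s t : ℕ, 1 ≤ s ∧ 1 ≤ t ∧ n = s * t ^ 2 ∧
      (s : ℝ) ≤ (N : ℝ) ^ (1 / 4 : ℝ)}.ncard : ℝ) ≤ (N : ℝ) ^ (3 / 4 : ℝ) := by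
  set A : Finset ℕ := Icc 1 ⌊(N : ℝ) ^ (1 / 4 : ℝ)⌋₊ with hA
  set B : Finset ℕ := Icc 1 ⌊(N : ℝ) ^ (1 / 2 : ℝ)⌋₊ with hB
  have hsub : {n : ℕ | 1 ≤ n ∧ n ≤ N ∧ ∃ s t : ℕ, 1 ≤ s ∧ 1 ≤ t ∧ n = s * t ^ 2 ∧
      (s : ℝ) ≤ (N : ℝ) ^ (1 / 4 : ℝ)} ⊆ (((A ×ˢ B).image (fun x => x.1 * x.2 ^ 2) : Finset ℕ) : Set ℕ) := by
    rintro n ⟨h1, h2, s, t, hs, ht, hn, hsN⟩
    simp only [coe_image, Set.mem_image, mem_coe, mem_product, Prod.exists]
    refine ⟨s, t, ⟨?_, ?_⟩, hn.symm⟩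
    · rw [hA, mem_Icc]; exact ⟨hs, Nat.le_floor hsN⟩
    · rw [hB, mem_Icc]
      refine ⟨ht, Nat.le_floor ?_⟩
      have h3 : t ^ 2 ≤ N := by
        calc t ^ 2 = 1 * t ^ 2 := by ring
          _ ≤ s * t ^ 2 := Nat.mul_le_mul_right _ hs
          _ = n := hn.symm
          _ ≤ N := h2
      have h4 : (t : ℝ) ^ 2 ≤ N := by exact_mod_cast h3
      rw [← Real.sqrt_eq_rpow]
      exact Real.le_sqrt_of_sq_le h4
  have h1 := Set.ncard_le_ncard hsub (Finset.finite_toSet _)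
  rw [Set.ncard_coe_finset] at h1
  have h2 : ((A ×ˢ B).image (fun x => x.1 * x.2 ^ 2)).card ≤ A.card * B.card := by
    rw [← card_product]; exact card_image_le
  have h3 : (A.card : ℝ) ≤ (N : ℝ) ^ (1 / 4 : ℝ) := by
    rw [hA, Nat.card_Icc, Nat.add_sub_cancel]; exact Nat.floor_le (by positivity)
  have h4 : (B.card : ℝ) ≤ (N : ℝ) ^ (1 / 2 : ℝ) := by
    rw [hB, Nat.card_Icc, Nat.add_sub_cancel]; exact Nat.floor_le (by positivity)
  have h5 : (N : ℝ) ^ (1 / 4 : ℝ) * (N : ℝ) ^ (1 / 2 : ℝ) = (N : ℝ) ^ (3 / 4 : ℝ) := by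
    rcases Nat.eq_zero_or_pos N with h | h
    · subst h; norm_num
    · rw [← Real.rpow_add (by exact_mod_cast h)]; norm_num
  calc _ ≤ ((A.card * B.card : ℕ) : ℝ) := by exact_mod_cast h1.trans h2
    _ = (A.card : ℝ) * B.card := by push_cast; ring
    _ ≤ (N : ℝ) ^ (1 / 4 : ℝ) * (N : ℝ) ^ (1 / 2 : ℝ) := by gcongr
    _ = _ := h5

theorem main_bound (C : ℝ) (hC0 : 0 ≤ C)
    (hC : ∀ N : ℕ, 1 ≤ N →
      |∑ p ∈ (Icc 1 N).filter Nat.Prime, Real.log p / p - Real.log N| ≤ C)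
    (η : ℝ) (hη : 0 < η) (N : ℕ) (hN : 2 ≤ N) (hCN : C ≤ η * Real.log N) :
    ((G η N).ncard : ℝ) ≤ (N : ℝ) ^ (3 / 4 : ℝ) + 512 * η ^ 2 * N := by
  have hN1 : (1 : ℝ) ≤ N := by exact_mod_cast (by omega : 1 ≤ N)
  have hlogN : 0 < Real.log N := Real.log_pos (by exact_mod_cast (by omega : 1 < N))
  set Z := ⌊(N : ℝ) ^ (3 * η)⌋₊ with hZ
  have hz1 : (1 : ℝ) ≤ (N : ℝ) ^ (3 * η) := Real.one_le_rpow hN1 (by positivity)
  have hZ1 : 1 ≤ Z := Nat.le_floor (by simpa using hz1)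
  have hZle : (Z : ℝ) ≤ (N : ℝ) ^ (3 * η) := Nat.floor_le (by positivity)
  have hlogZ : Real.log Z ≤ 3 * η * Real.log N := by
    calc Real.log Z ≤ Real.log ((N : ℝ) ^ (3 * η)) :=
          Real.log_le_log (by exact_mod_cast hZ1) hZle
      _ = 3 * η * Real.log N := Real.log_rpow (by linarith) _
  set P := (Icc 1 Z).filter Nat.Prime with hP
  have hMert : ∑ p ∈ P, Real.log p / p ≤ 4 * η * Real.log N := by
    have := (abs_le.1 (hC Z hZ1)).2
    linarith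
  have hM0 : 0 ≤ ∑ p ∈ P, Real.log p / p :=
    sum_nonneg fun p _ => div_nonneg (Real.log_natCast_nonneg p) (Nat.cast_nonneg p)
  have hSM := second_moment N P (fun p hp => (mem_filter.1 hp).2) (3 * η * Real.log N)
    (fun p hp => by
      have h1 := mem_Icc.1 (mem_filter.1 hp).1
      exact (Real.log_le_log (by exact_mod_cast h1.1) (by exact_mod_cast h1.2)).trans hlogZ)
  have hSM2 : ∑ n ∈ Icc 1 N, (wt P n) ^ 2 ≤ 32 * η ^ 2 * (Real.log N) ^ 2 * N := by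
    refine hSM.trans ?_
    have h1 : (∑ p ∈ P, Real.log p / p) ^ 2 ≤ (4 * η * Real.log N) ^ 2 :=
      pow_le_pow_left₀ hM0 hMert 2
    have h2 : 3 * η * Real.log N * ∑ p ∈ P, Real.log p / p
        ≤ 3 * η * Real.log N * (4 * η * Real.log N) :=
      mul_le_mul_of_nonneg_left hMert (by positivity)
    have h3 : (∑ p ∈ P, Real.log p / p) ^ 2 + 3 * η * Real.log N * ∑ p ∈ P, Real.log p / p
        ≤ 32 * η ^ 2 * (Real.log N) ^ 2 := by
      have h4 : 0 ≤ η ^ 2 * (Real.log N) ^ 2 := by positivity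
      nlinarith
    calc _ ≤ (N : ℝ) * (32 * η ^ 2 * (Real.log N) ^ 2) := mul_le_mul_of_nonneg_left h3 (by positivity)
      _ = _ := by ring
  -- the large part
  classical
  set T : Finset ℕ := (Icc 1 N).filter (fun n => Real.log N / 4 ≤ wt P n) with hT
  have hTcard : (T.card : ℝ) * (Real.log N / 4) ^ 2 ≤ 32 * η ^ 2 * (Real.log N) ^ 2 * N := by
    calc (T.card : ℝ) * (Real.log N / 4) ^ 2 = ∑ n ∈ T, (Real.log N / 4) ^ 2 := by
          rw [sum_const, nsmul_eq_mul]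
      _ ≤ ∑ n ∈ T, (wt P n) ^ 2 := sum_le_sum fun n hn =>
          pow_le_pow_left₀ (by positivity) (mem_filter.1 hn).2 2
      _ ≤ ∑ n ∈ Icc 1 N, (wt P n) ^ 2 :=
          sum_le_sum_of_subset_of_nonneg (filter_subset _ _) fun _ _ _ => sq_nonneg _
      _ ≤ _ := hSM2
  have hTcard2 : (T.card : ℝ) ≤ 512 * η ^ 2 * N := by
    have h5 : (T.card : ℝ) * (Real.log N) ^ 2 ≤ (512 * η ^ 2 * N) * (Real.log N) ^ 2 := by
      nlinarith
    exact le_of_mul_le_mul_right h5 (by positivity)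
  have hsub : G η N ⊆ {n : ℕ | 1 ≤ n ∧ n ≤ N ∧ ∃ s t : ℕ, 1 ≤ s ∧ 1 ≤ t ∧ n = s * t ^ 2 ∧
      (s : ℝ) ≤ (N : ℝ) ^ (1 / 4 : ℝ)} ∪ (T : Set ℕ) := by
    intro n hn
    obtain ⟨s, t, hs, ht, hst, hw⟩ := exists_sf η N n hn
    by_cases h : (s : ℝ) ≤ (N : ℝ) ^ (1 / 4 : ℝ)
    · exact Or.inl ⟨hn.1, hn.2.1, s, t, hs, ht, hst, h⟩
    · right
      push Not at h
      rw [mem_coe, hT, mem_filter, mem_Icc]
      refine ⟨⟨hn.1, hn.2.1⟩, le_trans ?_ hw⟩
      calc Real.log N / 4 = Real.log ((N : ℝ) ^ (1 / 4 : ℝ)) := by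
            rw [Real.log_rpow (by linarith)]; ring
        _ ≤ Real.log s := Real.log_le_log (by positivity) h.le
  have hfin1 : {n : ℕ | 1 ≤ n ∧ n ≤ N ∧ ∃ s t : ℕ, 1 ≤ s ∧ 1 ≤ t ∧ n = s * t ^ 2 ∧
      (s : ℝ) ≤ (N : ℝ) ^ (1 / 4 : ℝ)}.Finite :=
    (Set.finite_Icc 1 N).subset fun n hn => ⟨hn.1, hn.2.1⟩
  have h6 : (G η N).ncard ≤ {n : ℕ | 1 ≤ n ∧ n ≤ N ∧ ∃ s t : ℕ, 1 ≤ s ∧ 1 ≤ t ∧ n = s * t ^ 2 ∧
      (s : ℝ) ≤ (N : ℝ) ^ (1 / 4 : ℝ)}.ncard + T.card := by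
    refine (Set.ncard_le_ncard hsub (hfin1.union T.finite_toSet)).trans ?_
    refine (Set.ncard_union_le _ _).trans ?_
    rw [Set.ncard_coe_finset]
  have h7 : ((G η N).ncard : ℝ) ≤ ({n : ℕ | 1 ≤ n ∧ n ≤ N ∧ ∃ s t : ℕ, 1 ≤ s ∧ 1 ≤ t ∧ n = s * t ^ 2 ∧
      (s : ℝ) ≤ (N : ℝ) ^ (1 / 4 : ℝ)}.ncard : ℝ) + T.card := by exact_mod_cast h6
  linarith [small_part N]

theorem smooth : TaskSMOOTH := by
  intro hM ε hε
  obtain ⟨C', hC'⟩ := hM
  set C := max C' 0 with hCdef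
  have hC : ∀ N : ℕ, 1 ≤ N →
      |∑ p ∈ (Icc 1 N).filter Nat.Prime, Real.log p / p - Real.log N| ≤ C :=
    fun N hN => (hC' N hN).trans (le_max_left _ _)
  have hC0 : 0 ≤ C := le_max_right _ _
  refine ⟨ε / 1024, by positivity, fun η hη hη2 => ?_⟩
  have hlim1 : Tendsto (fun N : ℕ => η * Real.log (N : ℝ)) atTop atTop :=
    (Real.tendsto_log_atTop.comp tendsto_natCast_atTop_atTop).const_mul_atTop hη
  have hlim2 : Tendsto (fun N : ℕ => ε / 2 * η * (N : ℝ) ^ (1 / 4 : ℝ)) atTop atTop :=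
    ((tendsto_rpow_atTop (by norm_num)).comp tendsto_natCast_atTop_atTop).const_mul_atTop
      (by positivity)
  filter_upwards [hlim1.eventually_ge_atTop C, hlim2.eventually_ge_atTop 1,
    eventually_ge_atTop 2] with N h1 h2 h3
  have h4 := main_bound C hC0 hC η hη N h3 h1
  have hN0 : (0 : ℝ) < N := by exact_mod_cast (by omega : 0 < N)
  have h5 : (N : ℝ) ^ (3 / 4 : ℝ) ≤ ε / 2 * η * N := by
    have h6 : (N : ℝ) = (N : ℝ) ^ (1 / 4 : ℝ) * (N : ℝ) ^ (3 / 4 : ℝ) := by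
      rw [← Real.rpow_add hN0]; norm_num
    calc (N : ℝ) ^ (3 / 4 : ℝ) = 1 * (N : ℝ) ^ (3 / 4 : ℝ) := by ring
      _ ≤ (ε / 2 * η * (N : ℝ) ^ (1 / 4 : ℝ)) * (N : ℝ) ^ (3 / 4 : ℝ) :=
          mul_le_mul_of_nonneg_right h2 (by positivity)
      _ = ε / 2 * η * ((N : ℝ) ^ (1 / 4 : ℝ) * (N : ℝ) ^ (3 / 4 : ℝ)) := by ring
      _ = ε / 2 * η * N := by rw [← h6]
  have h7 : 512 * η ^ 2 * N ≤ ε / 2 * η * N := by
    have h8 : 512 * η ≤ ε / 2 := by linarith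
    have h9 : 512 * η * (η * N) ≤ ε / 2 * (η * N) := mul_le_mul_of_nonneg_right h8 (by positivity)
    nlinarith
  linarith

end Pool.Agent.H295R3.D6.Smooth
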