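import Pool.Agent.H295R3.D6.Stmts

set_option autoImplicit false

/-! Task MAX of project H295-D6 (helper381). -/

open Finset Filter

namespace Pool.Agent.H295R3.D6.MAX

open Classical in
/-- number of elements of `A` below `M` -/
noncomputable def cnt (A : Set ℕ) (M : ℕ) : ℕ := ((range M).filter (fun n => n ∈ A)).card

lemma cnt_zero (A : Set ℕ) : cnt A 0 = 0 := by simp [cnt]

lemma cnt_mono (A : Set ℕ) {a b : ℕ} (h : a ≤ b) : cnt A a ≤ cnt A b := by
  classical
  unfold cnt
  exact card_le_card (filter_subset_filter _ (range_mono h))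

lemma cnt_add (A : Set ℕ) {a b : ℕ} (h : a ≤ b) :
    cnt A b = cnt A a + (A ∩ {n | a ≤ n ∧ n < b}).ncard := by
  classical
  unfold cnt
  have h1 : (A ∩ {n | a ≤ n ∧ n < b}) = ((Ico a b).filter (fun n => n ∈ A) : Finset ℕ) := by
    ext n
    simp only [Set.mem_inter_iff, Set.mem_setOf_eq, coe_filter, Finset.mem_Ico]
    tauto
  rw [h1, Set.ncard_coe_finset, ← card_union_of_disjoint]
  · congr 1
    ext n
    simp only [mem_filter, mem_range, mem_union, Finset.mem_Ico]
    constructor
    · rintro ⟨h2, h3⟩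
      by_cases h4 : n < a
      · exact Or.inl ⟨h4, h3⟩
      · exact Or.inr ⟨⟨by omega, h2⟩, h3⟩
    · rintro (⟨h2, h3⟩ | ⟨⟨h2, h4⟩, h3⟩)
      · exact ⟨by omega, h3⟩
      · exact ⟨h4, h3⟩
  · rw [Finset.disjoint_left]
    intro n hn hn'
    simp only [mem_filter, mem_range, Finset.mem_Ico] at hn hn'
    omega

lemma cnt_le (A : Set ℕ) {a b : ℕ} (h : a ≤ b) : cnt A b ≤ cnt A a + (b - a) := by
  classical
  rw [cnt_add A h]
  gcongr
  have h1 : A ∩ {n | a ≤ n ∧ n < b} ⊆ ((Ico a b : Finset ℕ) : Set ℕ) := by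
    rintro n ⟨-, h2, h3⟩
    simp only [coe_Ico, Set.mem_Ico]
    exact ⟨h2, h3⟩
  calc (A ∩ {n | a ≤ n ∧ n < b}).ncard ≤ ((Ico a b : Finset ℕ) : Set ℕ).ncard :=
        Set.ncard_le_ncard h1 (Finset.finite_toSet _)
    _ = b - a := by rw [Set.ncard_coe_finset, Nat.card_Ico]

lemma key (E G : Set ℕ) (h0 : 0 ∉ E) (hE : ∀ m ∈ E, ∃ h : ℕ, 1 ≤ h ∧ h ≤ m ∧
    h ≤ 2 * (G ∩ {n | m - h ≤ n ∧ n < m}).ncard) (M : ℕ) : cnt E (M + 1) ≤ 4 * cnt G M := by
  induction M using Nat.strong_induction_on with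
  | _ M ih =>
    by_cases hM : M ∈ E
    · obtain ⟨h, h1, h2, h3⟩ := hE M hM
      have e1 : cnt E (M - h) ≤ 4 * cnt G (M - h) := by
        rcases Nat.eq_zero_or_pos (M - h) with h4 | h4
        · rw [h4, cnt_zero]; omega
        · obtain ⟨k, hk⟩ : ∃ k, M - h = k + 1 := ⟨M - h - 1, by omega⟩
          rw [hk]
          calc cnt E (k + 1) ≤ 4 * cnt G k := ih k (by omega)
            _ ≤ 4 * cnt G (k + 1) := by gcongr; exact cnt_mono G (by omega)
      have e2 : cnt E (M + 1) ≤ cnt E (M - h) + (M + 1 - (M - h)) := cnt_le E (by omega)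
      have e3 := cnt_add G (a := M - h) (b := M) (by omega)
      omega
    · rcases Nat.eq_zero_or_pos M with h4 | h4
      · subst h4
        have := cnt_add E (a := 0) (b := 1) (by omega)
        have e : (E ∩ {n | 0 ≤ n ∧ n < 1}) = ∅ := by
          ext n
          simp only [Set.mem_inter_iff, Set.mem_setOf_eq, Set.mem_empty_iff_false, iff_false]
          rintro ⟨h5, -, h6⟩
          have : n = 0 := by omega
          exact h0 (this ▸ h5)
        rw [e, cnt_zero, Set.ncard_empty] at this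
        have h7 : cnt E (0 + 1) = 0 := this
        rw [h7]
        exact Nat.zero_le _
      · obtain ⟨k, hk⟩ : ∃ k, M = k + 1 := ⟨M - 1, by omega⟩
        have e1 := cnt_add E (a := M) (b := M + 1) (by omega)
        have e : (E ∩ {n | M ≤ n ∧ n < M + 1}) = ∅ := by
          ext n
          simp only [Set.mem_inter_iff, Set.mem_setOf_eq, Set.mem_empty_iff_false, iff_false]
          rintro ⟨h5, h6, h7⟩
          have : n = M := by omega
          exact hM (this ▸ h5)
        rw [e, Set.ncard_empty] at e1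
        have e2 := ih k (by omega)
        have e3 := cnt_mono G (a := k) (b := M) (by omega)
        rw [← hk] at e2
        omega

lemma ncard_eq (A : Set ℕ) (M : ℕ) (h : ∀ n ∈ A, n < M) : A.ncard = cnt A M := by
  classical
  unfold cnt
  rw [← Set.ncard_coe_finset]
  congr 1
  ext n
  simp only [coe_filter, mem_range, Set.mem_setOf_eq]
  exact ⟨fun hn => ⟨h n hn, hn⟩, fun hn => hn.2⟩

theorem taskMAX : TaskMAX := by
  intro η N
  rw [ncard_eq (E1 η N) (N + 1) (fun n hn => by have := hn.2.1; omega),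
    ncard_eq (G η N) (N + 1) (fun n hn => by have := hn.2.1; omega)]
  refine (key (E1 η N) (G η N) (fun h => ?_) (fun m hm => hm.2.2) N).trans ?_
  · have := h.1
    omega
  · have := cnt_mono (G η N) (a := N) (b := N + 1) (by omega)
    omega

end Pool.Agent.H295R3.D6.MAX
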