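import Pool.Agent.H295R3.D6.Asm
import Pool.Agent.H295R3.D6.ChebL
import Pool.Agent.H295R3.D6.TSmooth
import Pool.Agent.H295R3.D6.TaskMAX
import Pool.Agent.H174R3.D6.TaskLS
import Pool.Agent.H157R3.D6.TaskREG
import Pool.Agent.H586R3.D6.TaskCHEB
import Pool.Agent.H894R3.D6.TaskKDEN
import Pool.Agent.H894R3.D6.TaskNICE
import Pool.Agent.H111R5.Count
import Pool.Agent.H941R3.D6.TaskHOH
import Pool.Agent.H644R3.D6.TaskA3
import Pool.Agent.H672R3.D6.TaskSTR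
import Pool.Agent.H603R3.D6.TaskK1
import Pool.Agent.H525R3.D6.TaskK3
import Pool.Agent.H632R3.D6.Lift
import Pool.Agent.H917R3.D6.Parity
import Pool.Agent.H170.D6.TaskK2A
import Pool.Agent.H170.D6.TaskK2B
import Pool.Agent.Helper601.Mertens
import Pool.Agent.H295R3.D6.ALSU2
import Pool.Agent.H278R3.D6.ALS
import Pool.Agent.H295R3.Hoheisel

set_option autoImplicit false

open Finset Filter

namespace Pool.Agent.H295R3.D6

theorem mert : Mert := Pool.Agent.Helper601.Mertens.mertens_log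

theorem final_of (hALS : TaskALS2) (hALSU : TaskALSU2) :
    ∃ c : ℝ, 0 < c ∧ ∀ᶠ n : ℕ in atTop, c * n < (((F 6 \ F 5) ∩ Set.Icc 1 n).ncard : ℝ) :=
  assembly Pool.Agent.H174R3.D6LS.taskLS Pool.Agent.H157R3.D6.taskREG hALS hALSU
    Pool.Agent.H586R3.D6.taskCHEB Smooth.smooth MAX.taskMAX taskKDEN Pool.Agent.H111R5.Count.taskCOUNT
    Pool.Agent.H941R3.D6.taskHOH Pool.Agent.H644R3.D6.taskA3 taskNICE Pool.Agent.H672R3.D6.taskSTR
    taskJ taskC1 taskC2 taskC5 Pool.Agent.H603R3.D6.taskK1A Pool.Agent.H603R3.D6.taskK1B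
    Pool.Agent.H170.D6.taskK2B Pool.Agent.H170.D6.taskK2A Pool.Agent.H525R3.D6.taskK3
    Pool.Agent.H632R3.D6.taskLIFT Pool.Agent.H632R3.D6.taskN4 Pool.Agent.H632R3.D6.taskN6
    chebL mert Pool.Agent.H295R3.D.hoheisel

/-- `D_6` has positive lower density -/
theorem final : ∃ c : ℝ, 0 < c ∧ ∀ᶠ n : ℕ in atTop,
    c * n < (((F 6 \ F 5) ∩ Set.Icc 1 n).ncard : ℝ) :=
  final_of Pool.Agent.H278R3.D6.taskALS2 taskALSU2

end Pool.Agent.H295R3.D6
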