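import Pool.Agent.H295R3.D6.Stmts

/-! Corrected versions of TaskALS and TaskALSU (helper278). -/

set_option autoImplicit false

open Finset Filter

namespace Pool.Agent.H295R3.D6

/-- TASK ALS (corrected) -/
def TaskALS2 : Prop := TaskLS → ChebL → ∀ c₁ : ℝ, 0 < c₁ → ∃ γ : ℝ, 0 < γ ∧ ∃ η₀ : ℝ, 0 < η₀ ∧
  ∀ η : ℝ, 0 < η → η ≤ η₀ →
  ∀ᶠ N : ℕ in atTop, ∀ k j l B : ℕ, 1 ≤ k → (k : ℝ) ≤ (N : ℝ) ^ η → 1 ≤ j → (j : ℝ) ≤ (N : ℝ) ^ η →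
    1 ≤ l → (l : ℝ) ≤ (N : ℝ) ^ (3 * η) → c₁ * l * Real.log N ≤ B → (B : ℝ) ≤ 6 * l * Real.log N →
    (({p : ℕ | 1 ≤ p ∧ p ≤ N ∧ ∀ q : ℕ, q.Prime → B < 2 * q → q ≤ B →
      ((∃ x, x < l ∧ x ≤ k * p ∧ q ∣ k * p - x) ∨ hit q (j * p) l)}).ncard : ℝ) ≤ (N : ℝ) ^ (1 - γ)

/-- TASK ALSU (corrected) -/
def TaskALSU2 : Prop := TaskALS2 → TaskLS → ChebL → ∀ c₁ : ℝ, 0 < c₁ → ∃ γ : ℝ, 0 < γ ∧ ∃ η₀ : ℝ, 0 < η₀ ∧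
  ∀ η : ℝ, 0 < η → η ≤ η₀ →
  ∀ᶠ N : ℕ in atTop, ((E5 η c₁ N).ncard : ℝ) ≤ (N : ℝ) ^ (1 - γ)

end Pool.Agent.H295R3.D6
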